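import Pool.Agent.H986R3.SOABasic

/-!
Relations of natural numbers that are defined by arithmetical formulas in the standard model.
-/

set_option autoImplicit false

namespace Pool.Agent.N636.PS

open Function Pool.Agent.H986R3.SOA

abbrev Ctx := ℕ → ℕ

def cons (a : ℕ) (v : Ctx) : Ctx
  | 0 => a
  | n + 1 => v n

def tail (v : Ctx) : Ctx := fun n => v (n + 1)

/-- renaming of number variables -/
def renT (f : ℕ → ℕ) : Tm → Tm
  | .var i => .var (f i)
  | .zero => .zero
  | .one => .one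
  | .add s t => .add (renT f s) (renT f t)
  | .mul s t => .mul (renT f s) (renT f t)

def ren (f : ℕ → ℕ) : Fm → Fm
  | .eq s t => .eq (renT f s) (renT f t)
  | .lt s t => .lt (renT f s) (renT f t)
  | .mem t i => .mem (renT f t) i
  | .neg φ => .neg (ren f φ)
  | .and φ ψ => .and (ren f φ) (ren f ψ)
  | .all i φ => .all (f i) (ren f φ)
  | .allS i φ => .allS i (ren f φ)

/-- value of a term in the standard model -/
def ev (v : Ctx) : Tm → ℕ
  | .var i => v i
  | .zero => 0
  | .one => 1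
  | .add s t => ev v s + ev v t
  | .mul s t => ev v s * ev v t

theorem ev_eq (v : Ctx) (t : Tm) : @Eq ℕ (Tm.val std v t) (ev v t) := by
  induction t with
  | var i => rfl
  | zero => rfl
  | one => rfl
  | add s t ihs iht => exact congrArg₂ (fun a b : ℕ => a + b) ihs iht
  | mul s t ihs iht => exact congrArg₂ (fun a b : ℕ => a * b) ihs iht

/-- truth in the standard model, all set variables being empty -/
def HS (v : Ctx) (φ : Fm) : Prop := Sat std v (fun _ => (∅ : Set ℕ)) φ

theorem HS_eq (v : Ctx) (s t : Tm) : HS v (.eq s t) ↔ ev v s = ev v t := by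
  show @Eq ℕ (Tm.val std v s) (Tm.val std v t) ↔ _
  rw [ev_eq, ev_eq]

theorem HS_lt (v : Ctx) (s t : Tm) : HS v (.lt s t) ↔ ev v s < ev v t := by
  show @LT.lt ℕ _ (Tm.val std v s) (Tm.val std v t) ↔ _
  rw [ev_eq, ev_eq]

theorem HS_mem (v : Ctx) (t : Tm) (i : ℕ) : HS v (.mem t i) ↔ False := Iff.rfl
theorem HS_neg (v : Ctx) (φ : Fm) : HS v (.neg φ) ↔ ¬ HS v φ := Iff.rfl
theorem HS_and (v : Ctx) (φ ψ : Fm) : HS v (.and φ ψ) ↔ (HS v φ ∧ HS v ψ) := Iff.rfl
theorem HS_all (v : Ctx) (i : ℕ) (φ : Fm) : HS v (.all i φ) ↔ ∀ a : ℕ, HS (update v i a) φ :=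
  Iff.rfl
theorem HS_ex (v : Ctx) (i : ℕ) (φ : Fm) : HS v (.ex i φ) ↔ ∃ a : ℕ, HS (update v i a) φ := by
  unfold Fm.ex
  rw [HS_neg, HS_all]
  simp only [HS_neg]
  push Not
  rfl

theorem HS_congr (φ : Fm) (v v' : Ctx) (h : ∀ i ∈ φ.fvN, v i = v' i) : HS v φ ↔ HS v' φ :=
  Sat_congr std φ v v' _ _ h (fun _ _ => rfl)

theorem ev_congr (t : Tm) (v v' : Ctx) (h : ∀ i ∈ t.fv, v i = v' i) : ev v t = ev v' t := by
  rw [← ev_eq, ← ev_eq]
  exact Tm.val_congr std t v v' h

theorem val_renT (f : ℕ → ℕ) (v : Ctx) (t : Tm) :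
    ev v (renT f t) = ev (fun i => v (f i)) t := by
  induction t with
  | var i => rfl
  | zero => rfl
  | one => rfl
  | add s t ihs iht => simp only [renT, ev, ihs, iht]
  | mul s t ihs iht => simp only [renT, ev, ihs, iht]

theorem update_comp_inj {f : ℕ → ℕ} (hf : Injective f) (v : Ctx) (i a : ℕ) :
    (fun j => update v (f i) a (f j)) = update (fun j => v (f j)) i a := by
  funext j
  by_cases h : j = i
  · subst h; simp
  · have : f j ≠ f i := fun h' => h (hf h')
    simp [update_of_ne h, update_of_ne this]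

theorem sat_ren {f : ℕ → ℕ} (hf : Injective f) : ∀ (φ : Fm), φ.Arithmetical →
    ∀ (v : Ctx), HS v (ren f φ) ↔ HS (fun i => v (f i)) φ
  | .eq s t, _, v => by simp only [ren, HS_eq, val_renT]
  | .lt s t, _, v => by simp only [ren, HS_lt, val_renT]
  | .mem t i, _, v => by simp only [ren, HS_mem]
  | .neg φ, h, v => by simp only [ren, HS_neg]; rw [sat_ren hf φ h]
  | .and φ ψ, h, v => by simp only [ren, HS_and]; rw [sat_ren hf φ h.1, sat_ren hf ψ h.2]
  | .all i φ, h, v => by
    simp only [ren, HS_all]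
    refine forall_congr' fun a => ?_
    rw [sat_ren hf φ h]
    rw [update_comp_inj hf]
  | .allS _ _, h, _ => h.elim

theorem ren_arith (f : ℕ → ℕ) : ∀ φ : Fm, φ.Arithmetical → (ren f φ).Arithmetical
  | .eq _ _, _ => trivial
  | .lt _ _, _ => trivial
  | .mem _ _, _ => trivial
  | .neg φ, h => ren_arith f φ h
  | .and φ ψ, h => ⟨ren_arith f φ h.1, ren_arith f ψ h.2⟩
  | .all _ φ, h => ren_arith f φ h
  | .allS _ _, h => h.elim

theorem ren_fvS (f : ℕ → ℕ) (φ : Fm) : (ren f φ).fvS = φ.fvS := by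
  induction φ with
  | eq s t => rfl
  | lt s t => rfl
  | mem t i => rfl
  | neg φ ih => exact ih
  | and φ ψ ih1 ih2 => simp only [ren, Fm.fvS, ih1, ih2]
  | all i φ ih => exact ih
  | allS i φ ih => simp only [ren, Fm.fvS, ih]

/-- `t` is the value function of a term -/
def IsT (t : Ctx → ℕ) : Prop := ∃ τ : Tm, ∀ v : Ctx, ev v τ = t v

/-- `R` is defined by an arithmetical formula without set variables -/
def AD (R : Ctx → Prop) : Prop :=
  ∃ φ : Fm, φ.Arithmetical ∧ φ.fvS = ∅ ∧ ∀ v : Ctx, HS v φ ↔ R v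

theorem IsT.var (i : ℕ) : IsT (fun v => v i) := ⟨.var i, fun _ => rfl⟩

theorem ev_numeral (a : ℕ) (v : Ctx) : ev v (numeral a) = a := by
  induction a with
  | zero => rfl
  | succ n ih => simp only [numeral, ev, ih]

theorem IsT.const (a : ℕ) : IsT (fun _ => a) := ⟨numeral a, ev_numeral a⟩

theorem IsT.add {s t : Ctx → ℕ} (hs : IsT s) (ht : IsT t) : IsT (fun v => s v + t v) := by
  obtain ⟨σ, hσ⟩ := hs
  obtain ⟨τ, hτ⟩ := ht
  exact ⟨.add σ τ, fun v => by simp only [ev, hσ, hτ]⟩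

theorem IsT.mul {s t : Ctx → ℕ} (hs : IsT s) (ht : IsT t) : IsT (fun v => s v * t v) := by
  obtain ⟨σ, hσ⟩ := hs
  obtain ⟨τ, hτ⟩ := ht
  exact ⟨.mul σ τ, fun v => by simp only [ev, hσ, hτ]⟩

theorem IsT.pr {s t : Ctx → ℕ} (hs : IsT s) (ht : IsT t) :
    IsT (fun v => Pool.Agent.H986R3.SOA.pr (s v) (t v)) := by
  unfold Pool.Agent.H986R3.SOA.pr
  exact ((hs.add ht).mul (hs.add ht)).add hs

theorem AD.congr {R S : Ctx → Prop} (hR : AD R) (h : ∀ v, R v ↔ S v) : AD S := by
  obtain ⟨φ, h1, h2, h3⟩ := hR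
  exact ⟨φ, h1, h2, fun v => (h3 v).trans (h v)⟩

theorem AD.not {R : Ctx → Prop} (hR : AD R) : AD (fun v => ¬ R v) := by
  obtain ⟨φ, h1, h2, h3⟩ := hR
  exact ⟨.neg φ, h1, h2, fun v => not_congr (h3 v)⟩

theorem AD.and {R S : Ctx → Prop} (hR : AD R) (hS : AD S) : AD (fun v => R v ∧ S v) := by
  obtain ⟨φ, h1, h2, h3⟩ := hR
  obtain ⟨ψ, k1, k2, k3⟩ := hS
  exact ⟨.and φ ψ, ⟨h1, k1⟩, by simp only [Fm.fvS, h2, k2, Set.union_empty],
    fun v => and_congr (h3 v) (k3 v)⟩

theorem AD.or {R S : Ctx → Prop} (hR : AD R) (hS : AD S) : AD (fun v => R v ∨ S v) :=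
  (hR.not.and hS.not).not.congr fun v => by tauto

theorem AD.imp {R S : Ctx → Prop} (hR : AD R) (hS : AD S) : AD (fun v => R v → S v) :=
  (hR.and hS.not).not.congr fun v => by tauto

theorem AD.eq {s t : Ctx → ℕ} (hs : IsT s) (ht : IsT t) : AD (fun v => s v = t v) := by
  obtain ⟨σ, hσ⟩ := hs
  obtain ⟨τ, hτ⟩ := ht
  exact ⟨.eq σ τ, trivial, rfl, fun v => by rw [HS_eq, hσ, hτ]⟩

theorem AD.lt {s t : Ctx → ℕ} (hs : IsT s) (ht : IsT t) : AD (fun v => s v < t v) := by
  obtain ⟨σ, hσ⟩ := hs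
  obtain ⟨τ, hτ⟩ := ht
  exact ⟨.lt σ τ, trivial, rfl, fun v => by rw [HS_lt, hσ, hτ]⟩

/-- prefixing `∃ x_{N+k-1} = τ_{k-1}, …, ∃ x_N = τ_0` -/
def blk (N : ℕ) (τ : ℕ → Tm) (φ : Fm) : ℕ → Fm
  | 0 => φ
  | k + 1 => .ex (N + k) (.and (.eq (.var (N + k)) (τ k)) (blk N τ φ k))

theorem bd_ge {t : Tm} {i : ℕ} (h : i ∈ t.fv) : i < t.bd := by
  induction t with
  | var j => rw [Set.mem_singleton_iff.1 h]; exact Nat.lt_succ_self j
  | zero => exact h.elim
  | one => exact h.elim
  | add s t ihs iht =>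
    rcases h with h | h
    · exact lt_of_lt_of_le (ihs h) (le_max_left _ _)
    · exact lt_of_lt_of_le (iht h) (le_max_right _ _)
  | mul s t ihs iht =>
    rcases h with h | h
    · exact lt_of_lt_of_le (ihs h) (le_max_left _ _)
    · exact lt_of_lt_of_le (iht h) (le_max_right _ _)

theorem fbd_ge {φ : Fm} {i : ℕ} (h : i ∈ φ.fvN) : i < φ.bd := by
  induction φ with
  | eq s t =>
    rcases h with h | h
    · exact lt_of_lt_of_le (bd_ge h) (le_max_left _ _)
    · exact lt_of_lt_of_le (bd_ge h) (le_max_right _ _)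
  | lt s t =>
    rcases h with h | h
    · exact lt_of_lt_of_le (bd_ge h) (le_max_left _ _)
    · exact lt_of_lt_of_le (bd_ge h) (le_max_right _ _)
  | mem t j => exact bd_ge h
  | neg φ ih => exact ih h
  | and φ ψ ih1 ih2 =>
    rcases h with h | h
    · exact lt_of_lt_of_le (ih1 h) (le_max_left _ _)
    · exact lt_of_lt_of_le (ih2 h) (le_max_right _ _)
  | all j φ ih => exact lt_of_lt_of_le (ih h.1) (le_max_right _ _)
  | allS j φ ih => exact ih h

theorem sat_blk (N : ℕ) (τ : ℕ → Tm) (φ : Fm) : ∀ (k : ℕ),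
    (∀ i < k, (τ i).bd ≤ N) → ∀ v : Ctx, HS v (blk N τ φ k) ↔
      HS (fun j => if N ≤ j ∧ j < N + k then ev v (τ (j - N)) else v j) φ := by
  intro k
  induction k with
  | zero =>
    intro _ v
    have : (fun j => if N ≤ j ∧ j < N + 0 then ev v (τ (j - N)) else v j) = v := by
      funext j
      rw [if_neg (by omega)]
    rw [this]; rfl
  | succ k ih =>
    intro hτ v
    have hval : ∀ (i : ℕ) (a : ℕ), i < k + 1 →
        ev (update v (N + k) a) (τ i) = ev v (τ i) := by
      intro i a hi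
      refine ev_congr _ _ _ fun j hj => ?_
      have h1 := bd_ge hj
      have h2 := hτ i hi
      rw [update_of_ne]
      omega
    simp only [blk, HS_ex, HS_and, HS_eq, ev, update_self]
    constructor
    · rintro ⟨a, h1, h2⟩
      rw [ih (fun i hi => hτ i (by omega))] at h2
      rw [hval k a (by omega)] at h1
      have h3 : (fun j => if N ≤ j ∧ j < N + (k + 1) then ev v (τ (j - N)) else v j) =
          fun j => if N ≤ j ∧ j < N + k then ev (update v (N + k) a) (τ (j - N)) else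
            update v (N + k) a j := by
        funext j
        by_cases hj : j = N + k
        · subst hj
          rw [if_pos (by omega), if_neg (by omega), update_self]
          rw [Nat.add_sub_cancel_left]
          exact h1.symm
        · by_cases hj' : N ≤ j ∧ j < N + k
          · rw [if_pos (by omega), if_pos hj', hval _ _ (by omega)]
          · rw [if_neg (by omega), if_neg hj', update_of_ne hj]
      rw [h3]; exact h2
    · intro h2
      refine ⟨ev v (τ k), (hval k _ (by omega)).symm, ?_⟩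
      rw [ih (fun i hi => hτ i (by omega))]
      have h3 : (fun j => if N ≤ j ∧ j < N + (k + 1) then ev v (τ (j - N)) else v j) =
          fun j => if N ≤ j ∧ j < N + k then
            ev (update v (N + k) (ev v (τ k))) (τ (j - N)) else
            update v (N + k) (ev v (τ k)) j := by
        funext j
        by_cases hj : j = N + k
        · subst hj
          rw [if_pos (by omega), if_neg (by omega), update_self]
          rw [Nat.add_sub_cancel_left]
        · by_cases hj' : N ≤ j ∧ j < N + k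
          · rw [if_pos (by omega), if_pos hj', hval _ _ (by omega)]
          · rw [if_neg (by omega), if_neg hj', update_of_ne hj]
      rw [← h3]; exact h2

theorem blk_arith (N : ℕ) (τ : ℕ → Tm) {φ : Fm} (h : φ.Arithmetical) (k : ℕ) :
    (blk N τ φ k).Arithmetical := by
  induction k with
  | zero => exact h
  | succ k ih =>
    simp only [blk, Fm.ex, Fm.Arithmetical]
    exact ⟨trivial, ih⟩

theorem blk_fvS (N : ℕ) (τ : ℕ → Tm) {φ : Fm} (h : φ.fvS = ∅) (k : ℕ) :
    (blk N τ φ k).fvS = ∅ := by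
  induction k with
  | zero => exact h
  | succ k ih => simp only [blk, Fm.ex, Fm.fvS, ih, Set.union_empty]

/-- closure under substitution of terms -/
theorem AD.comp {R : Ctx → Prop} (hR : AD R) {g : Ctx → Ctx} (hg : ∀ i, IsT (fun v => g v i)) :
    AD (fun v => R (g v)) := by
  obtain ⟨φ, h1, h2, h3⟩ := hR
  choose σ hσ using hg
  set b := φ.bd with hb
  set N := (Finset.range b).sup (fun i => (σ i).bd) with hN
  have hNi : ∀ i < b, (σ i).bd ≤ N := fun i hi =>
    Finset.le_sup (f := fun i => (σ i).bd) (Finset.mem_range.2 hi)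
  have hinj : Injective (fun i : ℕ => i + N) := fun i j h => Nat.add_right_cancel h
  refine ⟨blk N σ (ren (fun i => i + N) φ) b, blk_arith _ _ (ren_arith _ _ h1) _,
    blk_fvS _ _ (by rw [ren_fvS]; exact h2) _, fun v => ?_⟩
  rw [sat_blk N σ _ b hNi v, sat_ren hinj φ h1]
  show _ ↔ R (g v)
  rw [← h3 (g v)]
  refine HS_congr φ _ _ (fun i hi => ?_)
  have hib : i < b := fbd_ge hi
  show (if N ≤ i + N ∧ i + N < N + b then _ else _) = g v i
  rw [if_pos (by omega), Nat.add_sub_cancel]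
  exact hσ i v

theorem AD.ex {P : Ctx → ℕ → Prop} (hP : AD (fun w => P (tail w) (w 0))) :
    AD (fun v => ∃ x, P v x) := by
  obtain ⟨φ, h1, h2, h3⟩ := hP
  set N := φ.bd + 1 with hN
  -- rename so that variable 0 becomes N
  have hcomp : AD (fun v => (fun w => P (tail w) (w 0))
      (fun i => if i = 0 then v N else v (i - 1))) := by
    refine AD.comp (R := fun w => P (tail w) (w 0)) ⟨φ, h1, h2, h3⟩
      (g := fun v i => if i = 0 then v N else v (i - 1)) (fun i => ?_)
    by_cases hi : i = 0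
    · simp only [hi, if_true]; exact IsT.var N
    · simp only [hi, if_false]; exact IsT.var (i - 1)
  obtain ⟨ψ, k1, k2, k3⟩ := hcomp
  refine ⟨.ex N ψ, k1, k2, fun v => ?_⟩
  rw [HS_ex]
  refine exists_congr fun a => ?_
  rw [k3]
  have e1 : ∀ w : Ctx, P (tail w) (w 0) ↔ HS w φ := fun w => (h3 w).symm
  have e2 : P v a ↔ P (tail (cons a v)) (cons a v 0) := Iff.rfl
  rw [e2, e1]
  show P (tail _) _ ↔ _
  rw [e1]
  refine HS_congr φ _ _ (fun i hi => ?_)
  have hib : i < φ.bd := fbd_ge hi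
  rcases i with _ | i
  · simp [cons]
  · show (if i + 1 = 0 then _ else update v N a (i + 1 - 1)) = v i
    rw [if_neg (Nat.succ_ne_zero i), Nat.add_sub_cancel, update_of_ne (by omega)]

theorem AD.all {P : Ctx → ℕ → Prop} (hP : AD (fun w => P (tail w) (w 0))) :
    AD (fun v => ∀ x, P v x) :=
  (AD.ex (P := fun v x => ¬ P v x) hP.not).not.congr fun v => by push Not; rfl

theorem IsT.comp {t : Ctx → ℕ} (ht : IsT t) {g : Ctx → Ctx} (hg : ∀ i, IsT (fun v => g v i)) :
    IsT (fun v => t (g v)) := by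
  obtain ⟨τ, hτ⟩ := ht
  choose σ hσ using hg
  have key : ∀ τ : Tm, IsT (fun v => ev (g v) τ) := by
    intro τ
    induction τ with
    | var i => exact ⟨σ i, hσ i⟩
    | zero => exact ⟨.zero, fun _ => rfl⟩
    | one => exact ⟨.one, fun _ => rfl⟩
    | add s t ihs iht => exact ihs.add iht
    | mul s t ihs iht => exact ihs.mul iht
  obtain ⟨ρ, hρ⟩ := key τ
  exact ⟨ρ, fun v => (hρ v).trans (hτ (g v))⟩

theorem IsT.tail {t : Ctx → ℕ} (ht : IsT t) : IsT (fun v => t (tail v)) :=
  ht.comp fun i => IsT.var (i + 1)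

theorem AD.tail {R : Ctx → Prop} (hR : AD R) : AD (fun v => R (PS.tail v)) :=
  hR.comp fun i => IsT.var (i + 1)

theorem AD.ball {t : Ctx → ℕ} {P : Ctx → ℕ → Prop} (ht : IsT t)
    (hP : AD (fun w => P (PS.tail w) (w 0))) : AD (fun v => ∀ x, x < t v → P v x) :=
  AD.all (P := fun v x => x < t v → P v x) ((AD.lt (IsT.var 0) ht.tail).imp hP)

theorem AD.bex {t : Ctx → ℕ} {P : Ctx → ℕ → Prop} (ht : IsT t)
    (hP : AD (fun w => P (PS.tail w) (w 0))) : AD (fun v => ∃ x, x < t v ∧ P v x) :=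
  AD.ex (P := fun v x => x < t v ∧ P v x) ((AD.lt (IsT.var 0) ht.tail).and hP)

/-- A unary predicate of natural numbers. -/
def AD1 (P : ℕ → Prop) : Prop := AD (fun v => P (v 0))

def AD2 (P : ℕ → ℕ → Prop) : Prop := AD (fun v => P (v 0) (v 1))

def AD3 (P : ℕ → ℕ → ℕ → Prop) : Prop := AD (fun v => P (v 0) (v 1) (v 2))

theorem AD1.app {P : ℕ → Prop} (h : AD1 P) {t : Ctx → ℕ} (ht : IsT t) :
    AD (fun v => P (t v)) :=
  AD.comp (R := fun v => P (v 0)) h (g := fun v _ => t v) fun _ => ht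

theorem AD2.app {P : ℕ → ℕ → Prop} (h : AD2 P) {s t : Ctx → ℕ} (hs : IsT s) (ht : IsT t) :
    AD (fun v => P (s v) (t v)) :=
  AD.comp (R := fun v => P (v 0) (v 1)) h (g := fun v i => if i = 0 then s v else t v)
    fun i => by
      by_cases hi : i = 0
      · simp only [hi, if_true]; exact hs
      · simp only [hi, if_false]; exact ht

theorem AD3.app {P : ℕ → ℕ → ℕ → Prop} (h : AD3 P) {s t u : Ctx → ℕ} (hs : IsT s) (ht : IsT t)
    (hu : IsT u) : AD (fun v => P (s v) (t v) (u v)) :=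
  AD.comp (R := fun v => P (v 0) (v 1) (v 2)) h
    (g := fun v i => if i = 0 then s v else if i = 1 then t v else u v)
    fun i => by
      by_cases hi : i = 0
      · simp only [hi, if_true]; exact hs
      · by_cases hi' : i = 1
        · simp only [hi', if_true]; exact ht
        · simp only [hi, hi', if_false]; exact hu

/-- the formula with only the variable `0` free -/
theorem AD1.exists_fm {P : ℕ → Prop} (h : AD1 P) : ∃ α : Fm, α.Arithmetical ∧ α.FreeIn {0} ∧
    ∀ n : ℕ, SatN n 0 0 α ↔ P n := by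
  obtain ⟨φ, h1, h2, h3⟩ := h
  -- close all variables except 0
  have key : ∀ k : ℕ, ∃ ψ : Fm, ψ.Arithmetical ∧ ψ.fvS = ∅ ∧
      (∀ i ∈ ψ.fvN, i = 0 ∨ (k < i ∧ i < φ.bd)) ∧
      ∀ (v : Ctx), HS v ψ ↔ P (v 0) := by
    intro k
    induction k with
    | zero =>
      exact ⟨φ, h1, h2, fun i hi => by
        have := fbd_ge hi
        omega, h3⟩
    | succ k ih =>
      obtain ⟨ψ, k1, k2, k3, k4⟩ := ih
      refine ⟨.all (k + 1) ψ, k1, k2, fun i hi => ?_, fun v => ?_⟩
      · have h5 := k3 i hi.1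
        have h6 : i ≠ k + 1 := hi.2
        omega
      · simp only [HS_all, k4]
        have : ∀ a : ℕ, update v (k + 1) a 0 = v 0 := fun a => update_of_ne (by omega) _ _
        constructor
        · intro h; have := h 0; rwa [update_of_ne (by omega)] at this
        · intro h a; rw [update_of_ne (by omega)]; exact h
  obtain ⟨ψ, k1, k2, k3, k4⟩ := key φ.bd
  refine ⟨ψ, k1, ⟨fun i hi => ?_, k2⟩, fun n => ?_⟩
  · rcases k3 i hi with h | h
    · exact h
    · omega
  · exact k4 _

end Pool.Agent.N636.PS
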