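import Pool.Agent.N636.PS.Defs
import Pool.Agent.H986R3.SOAMain

/-!
A `Pi^1_1` definition for which a theory proves its own `Pi^1_1`-soundness.
-/

set_option autoImplicit false

namespace Pool.Agent.N636.PS

open Function Pool.Agent.H986R3.SOA

/-- A false sentence. -/
def bot : Fm := .neg (.eq .zero .zero)

theorem sat_bot (M : Model) (v : ℕ → M.Num) (V : ℕ → Set M.Num) : ¬ Sat M v V bot := by
  simp [bot, Sat]

theorem holds_std_iff {φ : Fm} (h : φ.IsSentence) (v : ℕ → ℕ) (V : ℕ → Set ℕ) :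
    std.Holds φ ↔ Sat std v V φ := by
  constructor
  · intro h1
    exact h1 v V (fun _ => trivial)
  · intro h1 v' V' _
    refine (Sat_congr std φ v' v V' V (fun i hi => ?_) (fun i hi => ?_)).2 h1
    · rw [h.1] at hi; exact hi.elim
    · rw [h.2] at hi; exact hi.elim

theorem std_aca : ∀ ψ, ACA0 ψ → std.Holds ψ := by
  intro ψ h v V _
  cases h with
  | succ_ne_zero => simp [Sat, Tm.val, std]
  | succ_inj => simp [Sat, Tm.val, std]
  | add_zero => simp [Sat, Tm.val, std]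
  | add_succ => simp only [Sat, Tm.val, std]; omega
  | mul_zero => simp [Sat, Tm.val, std]
  | mul_succ => simp only [Sat, Tm.val, std]; ring
  | not_lt_zero => simp [Sat, Tm.val, std]
  | lt_succ => simp only [Sat_iff, Sat_or, Sat, Tm.val, std]; omega
  | induction =>
    simp only [Sat_imp, Sat, Tm.val, update_self]
    rintro ⟨h0, hs⟩ a
    induction a with
    | zero => exact h0
    | succ n ih => exact hs n ih
  | comprehension φ i j hφ hj =>
    rw [Sat_exS]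
    refine ⟨{a | Sat std (update v i a) V φ}, trivial, fun a => ?_⟩
    rw [Sat_iff]
    simp only [Sat, Tm.val, update_self]
    refine Sat_congr std φ _ _ _ _ (fun _ _ => rfl) (fun k hk => ?_)
    rw [update_of_ne]
    rintro rfl
    exact hj hk

variable (𝒜 : Arithmetization)

theorem tr_std {φ : Fm} (h : φ.IsPi11Sentence) : SatN 0 0 φ.code 𝒜.tr ↔ std.Holds φ := by
  have h1 := 𝒜.tr_proves φ h std std_aca (asg (A := ℕ) 0 0 0) (fun _ => (∅ : Set ℕ))
    (fun _ => trivial)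
  rw [Sat_iff] at h1
  rw [holds_std_iff h.2, ← h1]
  simp only [Fm.inst, Sat, Sat_imp, Tm.val, update_self, val_numeral]
  have e : std.num φ.code = (φ.code : ℕ) := std_num _
  rw [e]
  constructor
  · intro h2 a ha
    subst ha
    refine (Sat_congr std 𝒜.tr _ _ _ _ (fun i hi => ?_) (fun i _ => rfl)).1 h2
    have := 𝒜.tr_free.1 hi
    rw [Set.mem_singleton_iff] at this
    subst this
    simp [asg]
  · intro h2
    refine (Sat_congr std 𝒜.tr _ _ _ _ (fun i hi => ?_) (fun i _ => rfl)).1 (h2 φ.code rfl)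
    have := 𝒜.tr_free.1 hi
    rw [Set.mem_singleton_iff] at this
    subst this
    simp [asg]

theorem sat_Pr (M : Model) (τ : Fm) (v : ℕ → M.Num) (V : ℕ → Set M.Num) :
    Sat M v V (𝒜.Pr τ) ↔ ∃ p, Sat M (update v 1 p) V 𝒜.prf ∧
      ∀ a, Sat M (update (update v 1 p) 0 a) V 𝒜.axIn →
        Sat M (update (update v 1 p) 0 a) V τ := by
  simp only [Arithmetization.Pr, Sat_ex, Sat, Sat_imp]

theorem Pr_fvN {τ : Fm} (h : τ.FreeIn {0}) : (𝒜.Pr τ).fvN ⊆ {2} := by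
  intro x hx
  have h1 : x ∈ 𝒜.prf.fvN → x ∈ ({1, 2} : Set ℕ) := fun h => 𝒜.prf_free.1 h
  have h2 : x ∈ 𝒜.axIn.fvN → x ∈ ({0, 1} : Set ℕ) := fun h => 𝒜.axIn_free.1 h
  have h3 : x ∈ τ.fvN → x ∈ ({0} : Set ℕ) := fun h' => h.1 h'
  simp only [Arithmetization.Pr, Fm.fvN, Fm.ex, Fm.imp, Set.mem_union, Set.mem_sdiff,
    Set.mem_singleton_iff] at hx
  simp only [Set.mem_insert_iff, Set.mem_singleton_iff] at h1 h2 h3 ⊢
  tauto

theorem Pr_fvS {τ : Fm} (h : τ.FreeIn {0}) : (𝒜.Pr τ).fvS = ∅ := by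
  simp only [Arithmetization.Pr, Fm.fvS, Fm.ex, Fm.imp, 𝒜.prf_free.2, 𝒜.axIn_free.2, h.2,
    Set.union_empty]

theorem Pr_arith {τ : Fm} (h : τ.Arithmetical) : (𝒜.Pr τ).Arithmetical := by
  simp only [Arithmetization.Pr, Fm.Arithmetical, Fm.ex, Fm.imp]
  exact ⟨𝒜.prf_arith, 𝒜.axIn_arith, h⟩

theorem reflection_sentence {τ : Fm} (h : τ.FreeIn {0}) : (𝒜.reflection τ).IsSentence := by
  constructor
  · refine Set.eq_empty_iff_forall_notMem.mpr fun x hx => ?_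
    have h1 : x ∈ 𝒜.isPi.fvN → x ∈ ({2} : Set ℕ) := fun h => 𝒜.isPi_free.1 h
    have h2 : x ∈ 𝒜.tr.fvN → x ∈ ({2} : Set ℕ) := fun h => 𝒜.tr_free.1 h
    have h3 : x ∈ (𝒜.Pr τ).fvN → x ∈ ({2} : Set ℕ) := fun h' => Pr_fvN 𝒜 h h'
    simp only [Arithmetization.reflection, Fm.fvN, Fm.imp, Set.mem_union, Set.mem_sdiff,
      Set.mem_singleton_iff] at hx
    simp only [Set.mem_singleton_iff] at h1 h2 h3
    tauto
  · simp only [Arithmetization.reflection, Fm.fvS, Fm.imp, 𝒜.isPi_free.2, 𝒜.tr_free.2,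
      Pr_fvS 𝒜 h, Set.union_empty]

theorem sat_reflection (M : Model) (τ : Fm) (v : ℕ → M.Num) (V : ℕ → Set M.Num) :
    Sat M v V (𝒜.reflection τ) ↔ ∀ x, Sat M (update v 2 x) V 𝒜.isPi →
      Sat M (update v 2 x) V (𝒜.Pr τ) → Sat M (update v 2 x) V 𝒜.tr := by
  simp only [Arithmetization.reflection, Sat, Sat_imp, and_imp]

/-- Reflection for the arithmetically defined, `Pi^1_1`-sound theory holds in the standard
model. -/
theorem reflection_std {T : Set Fm} (hT : ∀ ψ ∈ T, ψ.IsSentence) (hS : Pi11Sound T) {α : Fm}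
    (hf : α.FreeIn {0}) (hd : ∀ n : ℕ, SatN n 0 0 α ↔ ∃ φ ∈ T, φ.code = n) :
    std.Holds (𝒜.reflection α) := by
  rw [holds_std_iff (reflection_sentence 𝒜 hf) (asg (A := ℕ) 0 0 0) (fun _ => (∅ : Set ℕ)),
    sat_reflection]
  intro x h1 h2
  have e1 : ∀ x : ℕ, update (asg (A := ℕ) 0 0 0) 2 x 2 = x := fun x => by simp
  have h3 : SatN 0 0 x 𝒜.isPi := by
    refine (Sat_congr std 𝒜.isPi _ _ _ _ (fun i hi => ?_) (fun i _ => rfl)).1 h1
    have := 𝒜.isPi_free.1 hi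
    rw [Set.mem_singleton_iff] at this
    subst this
    simp [asg]
  obtain ⟨φ, hφ, rfl⟩ := (𝒜.isPi_std x).1 h3
  rw [sat_Pr] at h2
  obtain ⟨p, hp, hax⟩ := h2
  have h4 : Proves T φ := by
    refine (𝒜.prf_correct T hT φ hφ.2).2 ⟨p, ?_, fun a ha => ?_⟩
    · refine (Sat_congr std 𝒜.prf _ _ _ _ (fun i hi => ?_) (fun i _ => rfl)).1 hp
      have := 𝒜.prf_free.1 hi
      rcases this with rfl | rfl
      · simp [asg]
      · simp [asg]
    · refine (hd a).1 ?_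
      refine (Sat_congr std α _ _ _ _ (fun i hi => ?_) (fun i _ => rfl)).1 (hax a ?_)
      · have := hf.1 hi
        rw [Set.mem_singleton_iff] at this
        subst this
        simp [asg]
      · refine (Sat_congr std 𝒜.axIn _ _ _ _ (fun i hi => ?_) (fun i _ => rfl)).1 ha
        have := 𝒜.axIn_free.1 hi
        rcases this with rfl | rfl
        · simp [asg]
        · simp [asg]
  have h5 := (tr_std 𝒜 hφ).2 (hS φ hφ h4)
  refine (Sat_congr std 𝒜.tr _ _ _ _ (fun i hi => ?_) (fun i _ => rfl)).1 h5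
  have := 𝒜.tr_free.1 hi
  rw [Set.mem_singleton_iff] at this
  subst this
  simp [asg]

/-- The `Pi^1_1` formula `α(a) ∧ (reflection for α)`. -/
theorem exists_tau {α : Fm} (hα : α.Arithmetical) (hf : α.FreeIn {0}) :
    ∃ τ : Fm, τ.IsPi11 ∧ τ.FreeIn {0} ∧ ∀ (M : Model) (v : ℕ → M.Num) (V : ℕ → Set M.Num),
      Sat M v V τ ↔ Sat M v V α ∧ Sat M v V (𝒜.reflection α) := by
  obtain ⟨i, θ, htr, hθ⟩ := 𝒜.tr_pi
  refine ⟨.allS i (.and α (.all 2 (.imp (.and 𝒜.isPi (𝒜.Pr α)) θ))), ⟨i, _, rfl, ?_⟩,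
    ⟨?_, ?_⟩, fun M v V => ?_⟩
  · simp only [Fm.Arithmetical, Fm.imp]
    exact ⟨hα, ⟨𝒜.isPi_arith, Pr_arith 𝒜 hα⟩, hθ⟩
  · intro x hx
    have h1 : x ∈ 𝒜.isPi.fvN → x ∈ ({2} : Set ℕ) := fun h => 𝒜.isPi_free.1 h
    have h2 : x ∈ θ.fvN → x ∈ ({2} : Set ℕ) := fun h => 𝒜.tr_free.1 (by rw [htr]; exact h)
    have h3 : x ∈ (𝒜.Pr α).fvN → x ∈ ({2} : Set ℕ) := fun h' => Pr_fvN 𝒜 hf h'
    have h4 : x ∈ α.fvN → x ∈ ({0} : Set ℕ) := fun h' => hf.1 h'
    simp only [Fm.fvN, Fm.imp, Set.mem_union, Set.mem_sdiff, Set.mem_singleton_iff] at hx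
    simp only [Set.mem_singleton_iff] at h1 h2 h3 h4 ⊢
    tauto
  · refine Set.eq_empty_iff_forall_notMem.mpr fun x hx => ?_
    have h2 : x ∈ θ.fvS → x = i := fun h => by
      by_contra hne
      have : x ∈ (Fm.allS i θ).fvS := ⟨h, hne⟩
      rw [← htr, 𝒜.tr_free.2] at this
      exact this
    simp only [Fm.fvS, Fm.imp, 𝒜.isPi_free.2, Pr_fvS 𝒜 hf, hf.2, Set.mem_union, Set.mem_sdiff,
      Set.mem_singleton_iff, Set.mem_empty_iff_false, false_or] at hx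
    tauto
  · have key : ∀ (φ : Fm), φ.fvS = ∅ → ∀ (v : ℕ → M.Num) (A : Set M.Num),
        Sat M v (update V i A) φ ↔ Sat M v V φ := by
      intro φ hφ v A
      exact Sat_congr M φ _ _ _ _ (fun _ _ => rfl) (fun j hj => by rw [hφ] at hj; exact hj.elim)
    rw [sat_reflection, htr]
    simp only [Sat, Sat_imp]
    constructor
    · intro h
      obtain ⟨A0, hA0⟩ := M.sets_nonempty
      refine ⟨(key α hf.2 v A0).1 (h A0 hA0).1, fun x h1 h2 A hA => ?_⟩
      refine (h A hA).2 x ⟨?_, ?_⟩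
      · exact (key 𝒜.isPi 𝒜.isPi_free.2 _ A).2 h1
      · exact (key (𝒜.Pr α) (Pr_fvS 𝒜 hf) _ A).2 h2
    · rintro ⟨h1, h2⟩ A hA
      refine ⟨(key α hf.2 v A).2 h1, fun x hx => ?_⟩
      exact h2 x ((key 𝒜.isPi 𝒜.isPi_free.2 _ A).1 hx.1)
        ((key (𝒜.Pr α) (Pr_fvS 𝒜 hf) _ A).1 hx.2) A hA

/-- A `Pi^1_1`-sound theory `T` that has an arithmetical definition and proves the
`Pi^1_1`-soundness of pure logic has a `Pi^1_1` definition for which it proves its own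
`Pi^1_1`-soundness. -/
theorem self_sound {T : Set Fm} (hT : ∀ ψ ∈ T, ψ.IsSentence) (hS : Pi11Sound T) {α : Fm}
    (hα : α.Arithmetical) (hf : α.FreeIn {0})
    (hd : ∀ n : ℕ, SatN n 0 0 α ↔ ∃ φ ∈ T, φ.code = n)
    (hlog : Proves T (𝒜.reflection bot)) :
    ∃ τ : Fm, Pi11Defines τ T ∧ Proves T (𝒜.reflection τ) := by
  obtain ⟨τ, hpi, hfree, hτ⟩ := exists_tau 𝒜 hα hf
  refine ⟨τ, ⟨hpi, hfree, fun n => ?_⟩, fun M hM v V hV => ?_⟩
  · rw [← hd n]
    unfold SatN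
    rw [hτ]
    exact ⟨fun h => h.1, fun h => ⟨h, reflection_std 𝒜 hT hS hf hd _ _ (fun _ => trivial)⟩⟩
  · have hl := hlog M hM v V hV
    rw [sat_reflection] at hl ⊢
    intro x h1 h2
    by_cases hR : Sat M v V (𝒜.reflection α)
    · rw [sat_reflection] at hR
      refine hR x h1 ?_
      rw [sat_Pr] at h2 ⊢
      obtain ⟨p, hp, hax⟩ := h2
      exact ⟨p, hp, fun a ha => ((hτ M _ _).1 (hax a ha)).1⟩
    · refine hl x h1 ?_
      rw [sat_Pr] at h2 ⊢
      obtain ⟨p, hp, hax⟩ := h2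
      refine ⟨p, hp, fun a ha => absurd ?_ hR⟩
      have h3 := ((hτ M _ _).1 (hax a ha)).2
      have hs := reflection_sentence 𝒜 hf
      refine (Sat_congr M _ _ _ _ _ (fun i hi => ?_) (fun i _ => rfl)).1 h3
      rw [hs.1] at hi
      exact hi.elim

end Pool.Agent.N636.PS
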