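import Pool.Agent.N636.PS.Gen
import Pool.Agent.N636.PS.Fef

/-!
An arithmetically definable set of sentences that axiomatizes `Sigma^1_1-AC_0`.
-/

set_option autoImplicit false

namespace Pool.Agent.N636.PS

open Function Pool.Agent.H986R3.SOA

/-! ### codes of terms and formulas -/

def TmC : ℕ → Prop :=
  Gen (fun c => (∃ i, c = pr 0 i) ∨ (c = pr 1 0 ∨ c = pr 2 0))
    (fun x y z => x = pr 3 (pr y z) ∨ x = pr 4 (pr y z))

theorem tmC_iff (c : ℕ) : TmC c ↔ ∃ t : Tm, t.code = c := by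
  constructor
  · intro h
    induction h with
    | base h =>
      rcases h with ⟨i, rfl⟩ | rfl | rfl
      · exact ⟨.var i, rfl⟩
      · exact ⟨.zero, rfl⟩
      · exact ⟨.one, rfl⟩
    | step _ _ h ih1 ih2 =>
      obtain ⟨s, rfl⟩ := ih1
      obtain ⟨t, rfl⟩ := ih2
      rcases h with rfl | rfl
      · exact ⟨.add s t, rfl⟩
      · exact ⟨.mul s t, rfl⟩
  · rintro ⟨t, rfl⟩
    induction t with
    | var i => exact .base (Or.inl ⟨i, rfl⟩)
    | zero => exact .base (Or.inr (Or.inl rfl))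
    | one => exact .base (Or.inr (Or.inr rfl))
    | add s t ihs iht => exact .step ihs iht (Or.inl rfl)
    | mul s t ihs iht => exact .step ihs iht (Or.inr rfl)

theorem tmC_AD : AD1 TmC := by
  refine AD1.gen ?_ ?_
  · refine AD.or (AD.ex ?_) (AD.or ?_ ?_)
    · exact AD.eq (IsT.var 1) ((IsT.const 0).pr (IsT.var 0))
    · exact AD.eq (IsT.var 0) ((IsT.const 1).pr (IsT.const 0))
    · exact AD.eq (IsT.var 0) ((IsT.const 2).pr (IsT.const 0))
  · refine AD.or ?_ ?_
    · exact AD.eq (IsT.var 0) ((IsT.const 3).pr ((IsT.var 1).pr (IsT.var 2)))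
    · exact AD.eq (IsT.var 0) ((IsT.const 4).pr ((IsT.var 1).pr (IsT.var 2)))

/-- codes of arithmetical formulas -/
def ArC : ℕ → Prop :=
  Gen (fun c => ∃ s, TmC s ∧ ((∃ t, TmC t ∧ (c = pr 0 (pr s t) ∨ c = pr 1 (pr s t))) ∨
      ∃ i, c = pr 2 (pr s i)))
    (fun x y z => x = pr 3 y ∨ (x = pr 4 (pr y z) ∨ ∃ i, x = pr 5 (pr i y)))

theorem arC_iff (c : ℕ) : ArC c ↔ ∃ φ : Fm, φ.Arithmetical ∧ φ.code = c := by
  constructor
  · intro h
    induction h with
    | base h =>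
      obtain ⟨s, hs, ⟨t, ht, rfl | rfl⟩ | ⟨i, rfl⟩⟩ := h
      · obtain ⟨s, rfl⟩ := (tmC_iff s).1 hs
        obtain ⟨t, rfl⟩ := (tmC_iff t).1 ht
        exact ⟨.eq s t, trivial, rfl⟩
      · obtain ⟨s, rfl⟩ := (tmC_iff s).1 hs
        obtain ⟨t, rfl⟩ := (tmC_iff t).1 ht
        exact ⟨.lt s t, trivial, rfl⟩
      · obtain ⟨s, rfl⟩ := (tmC_iff s).1 hs
        exact ⟨.mem s i, trivial, rfl⟩
    | step _ _ h ih1 ih2 =>
      obtain ⟨s, hs, rfl⟩ := ih1
      obtain ⟨t, ht, rfl⟩ := ih2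
      rcases h with rfl | rfl | ⟨i, rfl⟩
      · exact ⟨.neg s, hs, rfl⟩
      · exact ⟨.and s t, ⟨hs, ht⟩, rfl⟩
      · exact ⟨.all i s, hs, rfl⟩
  · rintro ⟨φ, hφ, rfl⟩
    induction φ with
    | eq s t =>
      exact .base ⟨_, (tmC_iff _).2 ⟨s, rfl⟩, Or.inl ⟨_, (tmC_iff _).2 ⟨t, rfl⟩, Or.inl rfl⟩⟩
    | lt s t =>
      exact .base ⟨_, (tmC_iff _).2 ⟨s, rfl⟩, Or.inl ⟨_, (tmC_iff _).2 ⟨t, rfl⟩, Or.inr rfl⟩⟩
    | mem t i => exact .base ⟨_, (tmC_iff _).2 ⟨t, rfl⟩, Or.inr ⟨i, rfl⟩⟩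
    | neg φ ih => exact .step (ih hφ) (ih hφ) (Or.inl rfl)
    | and φ ψ ih1 ih2 => exact .step (ih1 hφ.1) (ih2 hφ.2) (Or.inr (Or.inl rfl))
    | all i φ ih => exact .step (ih hφ) (ih hφ) (Or.inr (Or.inr ⟨i, rfl⟩))
    | allS i φ ih => exact hφ.elim

theorem arC_AD : AD1 ArC := by
  refine AD1.gen ?_ ?_
  · refine AD.ex (AD.and (tmC_AD.app (IsT.var 0)) (AD.or (AD.ex (AD.and
      (tmC_AD.app (IsT.var 0)) (AD.or ?_ ?_))) (AD.ex ?_)))
    · exact AD.eq (IsT.var 2) ((IsT.const 0).pr ((IsT.var 1).pr (IsT.var 0)))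
    · exact AD.eq (IsT.var 2) ((IsT.const 1).pr ((IsT.var 1).pr (IsT.var 0)))
    · exact AD.eq (IsT.var 2) ((IsT.const 2).pr ((IsT.var 1).pr (IsT.var 0)))
  · refine AD.or ?_ (AD.or ?_ (AD.ex ?_))
    · exact AD.eq (IsT.var 0) ((IsT.const 3).pr (IsT.var 1))
    · exact AD.eq (IsT.var 0) ((IsT.const 4).pr ((IsT.var 1).pr (IsT.var 2)))
    · exact AD.eq (IsT.var 1) ((IsT.const 5).pr ((IsT.var 0).pr (IsT.var 2)))

/-- codes of `Sigma^1_1` formulas -/
def SgC : ℕ → Prop := Gen ArC (fun x y _ => ∃ i, x = pr 3 (pr 6 (pr i (pr 3 y))))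

theorem sgC_iff (c : ℕ) : SgC c ↔ ∃ φ : Fm, Sigma11 φ ∧ φ.code = c := by
  constructor
  · intro h
    induction h with
    | base h =>
      obtain ⟨φ, h1, rfl⟩ := (arC_iff _).1 h
      exact ⟨φ, .arith h1, rfl⟩
    | step _ _ h ih1 ih2 =>
      obtain ⟨s, hs, rfl⟩ := ih1
      obtain ⟨i, rfl⟩ := h
      exact ⟨.exS i s, .exS i hs, rfl⟩
  · rintro ⟨φ, hφ, rfl⟩
    induction hφ with
    | arith h => exact .base ((arC_iff _).2 ⟨_, h, rfl⟩)
    | exS i h ih => exact .step ih ih ⟨i, rfl⟩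

theorem sgC_AD : AD1 SgC := by
  refine AD1.gen arC_AD (AD.ex ?_)
  exact AD.eq (IsT.var 1) ((IsT.const 3).pr ((IsT.const 6).pr ((IsT.var 0).pr
    ((IsT.const 3).pr (IsT.var 2)))))

/-! ### free variables are bounded by the code -/

theorem le_pr_left (a b : ℕ) : a ≤ pr a b := Nat.le_add_left _ _

theorem le_pr_right (a b : ℕ) : b ≤ pr a b := by
  unfold pr
  nlinarith [Nat.zero_le a, Nat.zero_le b, Nat.le_mul_self (a + b)]

theorem fv_le {t : Tm} {i : ℕ} (h : i ∈ t.fv) : i ≤ t.code := by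
  induction t with
  | var j => rw [Set.mem_singleton_iff.1 h]; exact le_pr_right _ _
  | zero => exact h.elim
  | one => exact h.elim
  | add s t ihs iht =>
    rcases h with h | h
    · exact (ihs h).trans ((le_pr_left _ _).trans (le_pr_right _ _))
    · exact (iht h).trans ((le_pr_right _ _).trans (le_pr_right _ _))
  | mul s t ihs iht =>
    rcases h with h | h
    · exact (ihs h).trans ((le_pr_left _ _).trans (le_pr_right _ _))
    · exact (iht h).trans ((le_pr_right _ _).trans (le_pr_right _ _))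

theorem fvN_le {φ : Fm} {i : ℕ} (h : i ∈ φ.fvN) : i ≤ φ.code := by
  induction φ with
  | eq s t =>
    rcases h with h | h
    · exact (fv_le h).trans ((le_pr_left _ _).trans (le_pr_right _ _))
    · exact (fv_le h).trans ((le_pr_right _ _).trans (le_pr_right _ _))
  | lt s t =>
    rcases h with h | h
    · exact (fv_le h).trans ((le_pr_left _ _).trans (le_pr_right _ _))
    · exact (fv_le h).trans ((le_pr_right _ _).trans (le_pr_right _ _))
  | mem t j => exact (fv_le h).trans ((le_pr_left _ _).trans (le_pr_right _ _))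
  | neg φ ih => exact (ih h).trans (le_pr_right _ _)
  | and φ ψ ih1 ih2 =>
    rcases h with h | h
    · exact (ih1 h).trans ((le_pr_left _ _).trans (le_pr_right _ _))
    · exact (ih2 h).trans ((le_pr_right _ _).trans (le_pr_right _ _))
  | all j φ ih => exact (ih h.1).trans ((le_pr_right _ _).trans (le_pr_right _ _))
  | allS j φ ih => exact (ih h).trans ((le_pr_right _ _).trans (le_pr_right _ _))

theorem fvS_le {φ : Fm} {i : ℕ} (h : i ∈ φ.fvS) : i ≤ φ.code := by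
  induction φ with
  | eq s t => exact h.elim
  | lt s t => exact h.elim
  | mem t j => 
    rw [Set.mem_singleton_iff.1 h]
    exact (le_pr_right _ _).trans (le_pr_right _ _)
  | neg φ ih => exact (ih h).trans (le_pr_right _ _)
  | and φ ψ ih1 ih2 =>
    rcases h with h | h
    · exact (ih1 h).trans ((le_pr_left _ _).trans (le_pr_right _ _))
    · exact (ih2 h).trans ((le_pr_right _ _).trans (le_pr_right _ _))
  | all j φ ih => exact (ih h).trans ((le_pr_right _ _).trans (le_pr_right _ _))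
  | allS j φ ih => exact (ih h.1).trans ((le_pr_right _ _).trans (le_pr_right _ _))

/-! ### the axioms -/

/-- the comprehension axiom for `φ`, with a fresh set variable -/
def compFm (i : ℕ) (φ : Fm) : Fm :=
  .exS (φ.code + 1) (.all i (.iff (.mem (.var i) (φ.code + 1)) φ))

/-- the axiom of choice for `φ`, with fresh variables -/
def chFm (n X : ℕ) (φ : Fm) : Fm := choiceFm n (n + 1) X (φ.code + X + 1) φ

def basicList : List Fm :=
  [.neg (.eq (.add (.var 0) .one) .zero),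
   .imp (.eq (.add (.var 0) .one) (.add (.var 1) .one)) (.eq (.var 0) (.var 1)),
   .eq (.add (.var 0) .zero) (.var 0),
   .eq (.add (.var 0) (.add (.var 1) .one)) (.add (.add (.var 0) (.var 1)) .one),
   .eq (.mul (.var 0) .zero) .zero,
   .eq (.mul (.var 0) (.add (.var 1) .one)) (.add (.mul (.var 0) (.var 1)) (.var 0)),
   .neg (.lt (.var 0) .zero),
   .iff (.lt (.var 0) (.add (.var 1) .one)) (.or (.lt (.var 0) (.var 1)) (.eq (.var 0) (.var 1))),
   .imp (.and (.mem .zero 0)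
      (.all 0 (.imp (.mem (.var 0) 0) (.mem (.add (.var 0) .one) 0)))) (.all 0 (.mem (.var 0) 0))]

inductive Ax0 : Fm → Prop
  | basic {φ : Fm} : φ ∈ basicList → Ax0 φ
  | comp (i : ℕ) {φ : Fm} : φ.Arithmetical → Ax0 (compFm i φ)
  | choice (n X : ℕ) {φ : Fm} : Sigma11 φ → Ax0 (chFm n X φ)

/-- universal closure -/
def cl (φ : Fm) : ℕ → Fm
  | 0 => φ
  | k + 1 => .all k (.allS k (cl φ k))

/-- The theory: the universal closures of the axioms. -/
def T0 : Set Fm := {ψ | ∃ χ, Ax0 χ ∧ ψ = cl χ (χ.code + 1)}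

theorem cl_fvN {φ : Fm} {k i : ℕ} (h : i ∈ (cl φ k).fvN) : i ∈ φ.fvN ∧ k ≤ i := by
  induction k with
  | zero => exact ⟨h, Nat.zero_le _⟩
  | succ k ih =>
    have h1 := ih h.1
    have h2 : i ≠ k := h.2
    exact ⟨h1.1, by omega⟩

theorem cl_fvS {φ : Fm} {k i : ℕ} (h : i ∈ (cl φ k).fvS) : i ∈ φ.fvS ∧ k ≤ i := by
  induction k with
  | zero => exact ⟨h, Nat.zero_le _⟩
  | succ k ih =>
    have h1 := ih h.1
    have h2 : i ≠ k := h.2
    exact ⟨h1.1, by omega⟩

theorem cl_sentence (φ : Fm) : (cl φ (φ.code + 1)).IsSentence := by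
  constructor
  · refine Set.eq_empty_iff_forall_notMem.mpr fun i hi => ?_
    have h := cl_fvN hi
    have := fvN_le h.1
    omega
  · refine Set.eq_empty_iff_forall_notMem.mpr fun i hi => ?_
    have h := cl_fvS hi
    have := fvS_le h.1
    omega

theorem holds_cl {M : Model} {φ : Fm} (k : ℕ) : M.Holds (cl φ k) ↔ M.Holds φ := by
  induction k with
  | zero => exact Iff.rfl
  | succ k ih =>
    rw [← ih]
    constructor
    · intro h v V hV
      have h1 := h v V hV (v k) (V k) (hV k)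
      rwa [update_eq_self, update_eq_self] at h1
    · intro h v V hV a A hA
      refine h _ _ fun j => ?_
      by_cases hj : j = k
      · subst hj; rw [update_self]; exact hA
      · rw [update_of_ne hj]; exact hV j

theorem T0_sentence : ∀ ψ ∈ T0, ψ.IsSentence := by
  rintro ψ ⟨χ, _, rfl⟩
  exact cl_sentence χ

theorem sat_choiceFm (M : Model) {n m X Y : ℕ} {φ : Fm} (hm : m ≠ n) (hY : Y ≠ X)
    (hYφ : Y ∉ φ.fvS) (v : ℕ → M.Num) (V : ℕ → Set M.Num) :
    Sat M v V (choiceFm n m X Y φ) ↔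
      ((∀ a, ∃ A ∈ M.sets, Sat M (update v n a) (update V X A) φ) →
        ∃ B ∈ M.sets, ∀ a, ∀ A ∈ M.sets, (∀ b, b ∈ A ↔ M.pr a b ∈ B) →
          Sat M (update v n a) (update V X A) φ) := by
  simp only [choiceFm, Sat_imp, Sat_exS, Sat, Sat_iff]
  refine imp_congr Iff.rfl (exists_congr fun B => and_congr_right fun _ =>
    forall_congr' fun a => forall_congr' fun A => forall_congr' fun _ => ?_)
  refine imp_congr (forall_congr' fun b => ?_) ?_
  · have e1 : (Tm.var m).val M (update (update v n a) m b) = b := by simp [Tm.val]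
    have e2 : (pairT (.var n) (.var m)).val M (update (update v n a) m b) = M.pr a b := by
      simp [pairT, Tm.val, Model.pr, update_of_ne (Ne.symm hm)]
    rw [e1, e2, update_self, update_of_ne hY, update_self]
  · refine Sat_congr M φ _ _ _ _ (fun _ _ => rfl) fun k hk => ?_
    by_cases hkX : k = X
    · subst hkX; simp
    · rw [update_of_ne hkX, update_of_ne hkX, update_of_ne]
      rintro rfl
      exact hYφ hk

theorem sat_comp (M : Model) {i j : ℕ} {φ : Fm} (hj : j ∉ φ.fvS) (v : ℕ → M.Num)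
    (V : ℕ → Set M.Num) : Sat M v V (.exS j (.all i (.iff (.mem (.var i) j) φ))) ↔
      ∃ B ∈ M.sets, ∀ a, a ∈ B ↔ Sat M (update v i a) V φ := by
  simp only [Sat_exS, Sat, Sat_iff, Tm.val, update_self]
  refine exists_congr fun B => and_congr_right fun _ => forall_congr' fun a => iff_congr Iff.rfl ?_
  refine Sat_congr M φ _ _ _ _ (fun _ _ => rfl) fun k hk => ?_
  rw [update_of_ne]
  rintro rfl
  exact hj hk

theorem fresh {φ : Fm} {j : ℕ} (h : φ.code < j) : j ∉ φ.fvS := fun hj => by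
  have := fvS_le hj
  omega

/-- `T0` proves the axioms of `Sigma^1_1-AC_0` -/
theorem T0_proves {M : Model} (hM : ∀ ψ ∈ T0, M.Holds ψ) {φ : Fm} (h : Sigma11AC0 φ) :
    M.Holds φ := by
  have hax : ∀ χ, Ax0 χ → M.Holds χ := fun χ hχ =>
    (holds_cl _).1 (hM _ ⟨χ, hχ, rfl⟩)
  cases h with
  | aca h =>
    cases h with
    | comprehension φ i j hφ hj =>
      intro v V hV
      rw [sat_comp M hj]
      exact (sat_comp M (fresh (Nat.lt_succ_self _)) v V).1 (hax _ (.comp i hφ) v V hV)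
    | _ => exact hax _ (.basic (by simp [basicList]))
  | choice n m X Y φ hφ hm hY hYφ =>
    intro v V hV
    rw [sat_choiceFm M hm hY hYφ]
    exact (sat_choiceFm M (Nat.succ_ne_self n) (by omega) (fresh (by omega)) v V).1
      (hax _ (.choice n X hφ) v V hV)

theorem std_choice {n m X Y : ℕ} {φ : Fm} (hm : m ≠ n) (hY : Y ≠ X)
    (hYφ : Y ∉ φ.fvS) : std.Holds (choiceFm n m X Y φ) := by
  intro v V _
  rw [sat_choiceFm std hm hY hYφ]
  intro h
  choose A _ hA using h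
  refine ⟨{c | ∃ a b : ℕ, c = pr a b ∧ b ∈ A a}, trivial, fun a A' _ hA' => ?_⟩
  have : A' = A a := by
    ext b
    rw [hA' b]
    constructor
    · rintro ⟨a', b', h1, h2⟩
      obtain ⟨rfl, rfl⟩ := pr_inj' h1
      exact h2
    · intro hb
      exact ⟨a, b, rfl, hb⟩
  rw [this]
  exact hA a
where
  pr_inj' {a b c d : ℕ} (h : std.pr a b = pr c d) : a = c ∧ b = d := by
    have h : (a + b) * (a + b) + a = (c + d) * (c + d) + c := h
    have h1 : a + b = c + d := by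
      rcases lt_trichotomy (a + b) (c + d) with hlt | heq | hgt
      · exfalso
        have : (a + b + 1) * (a + b + 1) ≤ (c + d) * (c + d) := Nat.mul_le_mul hlt hlt
        nlinarith
      · exact heq
      · exfalso
        have : (c + d + 1) * (c + d + 1) ≤ (a + b) * (a + b) := Nat.mul_le_mul hgt hgt
        nlinarith
    rw [h1] at h
    omega

theorem T0_true : ∀ ψ ∈ T0, std.Holds ψ := by
  rintro ψ ⟨χ, hχ, rfl⟩
  rw [holds_cl]
  cases hχ with
  | basic h =>
    simp only [basicList, List.mem_cons, List.not_mem_nil, or_false] at h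
    rcases h with rfl | rfl | rfl | rfl | rfl | rfl | rfl | rfl | rfl
    · exact std_aca _ .succ_ne_zero
    · exact std_aca _ .succ_inj
    · exact std_aca _ .add_zero
    · exact std_aca _ .add_succ
    · exact std_aca _ .mul_zero
    · exact std_aca _ .mul_succ
    · exact std_aca _ .not_lt_zero
    · exact std_aca _ .lt_succ
    · exact std_aca _ .induction
  | comp i hφ => exact std_aca _ (.comprehension _ _ _ hφ (fresh (Nat.lt_succ_self _)))
  | choice n X hφ => exact std_choice (Nat.succ_ne_self n) (by omega) (fresh (by omega))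

/-! ### the set of codes is arithmetically definable -/

def impC (a b : ℕ) : ℕ := pr 3 (pr 4 (pr a (pr 3 b)))
def iffC (a b : ℕ) : ℕ := pr 4 (pr (impC a b) (impC b a))
def exSC (i a : ℕ) : ℕ := pr 3 (pr 6 (pr i (pr 3 a)))
def pairC (n m : ℕ) : ℕ :=
  pr 3 (pr (pr 4 (pr (pr 3 (pr (pr 0 n) (pr 0 m))) (pr 3 (pr (pr 0 n) (pr 0 m))))) (pr 0 n))

def compC (i d : ℕ) : ℕ :=
  exSC (d + 1) (pr 5 (pr i (iffC (pr 2 (pr (pr 0 i) (d + 1))) d)))

def chC (n X d : ℕ) : ℕ :=
  impC (pr 5 (pr n (exSC X d)))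
    (exSC (d + X + 1) (pr 5 (pr n (pr 6 (pr X (impC
      (pr 5 (pr (n + 1) (iffC (pr 2 (pr (pr 0 (n + 1)) X))
        (pr 2 (pr (pairC n (n + 1)) (d + X + 1)))))) d))))))

theorem code_comp (i : ℕ) (φ : Fm) : (compFm i φ).code = compC i φ.code := rfl
theorem code_ch (n X : ℕ) (φ : Fm) : (chFm n X φ).code = chC n X φ.code := rfl

section ist
variable {a b c : Ctx → ℕ}
theorem IsT.impC (ha : IsT a) (hb : IsT b) : IsT (fun v => PS.impC (a v) (b v)) :=
  (IsT.const 3).pr ((IsT.const 4).pr (ha.pr ((IsT.const 3).pr hb)))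
theorem IsT.iffC (ha : IsT a) (hb : IsT b) : IsT (fun v => PS.iffC (a v) (b v)) :=
  (IsT.const 4).pr ((ha.impC hb).pr (hb.impC ha))
theorem IsT.exSC (ha : IsT a) (hb : IsT b) : IsT (fun v => PS.exSC (a v) (b v)) :=
  (IsT.const 3).pr ((IsT.const 6).pr (ha.pr ((IsT.const 3).pr hb)))
theorem IsT.pairC (ha : IsT a) (hb : IsT b) : IsT (fun v => PS.pairC (a v) (b v)) :=
  (IsT.const 3).pr (((IsT.const 4).pr (((IsT.const 3).pr (((IsT.const 0).pr ha).pr
    ((IsT.const 0).pr hb))).pr ((IsT.const 3).pr (((IsT.const 0).pr ha).pr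
    ((IsT.const 0).pr hb))))).pr ((IsT.const 0).pr ha))
theorem IsT.compC (ha : IsT a) (hb : IsT b) : IsT (fun v => PS.compC (a v) (b v)) :=
  (hb.add (IsT.const 1)).exSC ((IsT.const 5).pr (ha.pr (((IsT.const 2).pr
    (((IsT.const 0).pr ha).pr (hb.add (IsT.const 1)))).iffC hb)))
theorem IsT.chC (ha : IsT a) (hb : IsT b) (hc : IsT c) :
    IsT (fun v => PS.chC (a v) (b v) (c v)) :=
  ((IsT.const 5).pr (ha.pr (hb.exSC hc))).impC
    (((hc.add hb).add (IsT.const 1)).exSC ((IsT.const 5).pr (ha.pr ((IsT.const 6).pr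
      (hb.pr (((IsT.const 5).pr ((ha.add (IsT.const 1)).pr
        (((IsT.const 2).pr (((IsT.const 0).pr (ha.add (IsT.const 1))).pr hb)).iffC
          ((IsT.const 2).pr ((ha.pairC (ha.add (IsT.const 1))).pr
            ((hc.add hb).add (IsT.const 1))))))).impC hc))))))
end ist

theorem list_AD (l : List Fm) : AD1 (fun c => ∃ χ ∈ l, Fm.code χ = c) := by
  unfold AD1
  induction l with
  | nil =>
    refine (AD.eq (IsT.const 0) (IsT.const 1)).congr fun v => ?_
    simp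
  | cons a l ih =>
    refine ((AD.eq (IsT.const (Fm.code a)) (IsT.var 0)).or ih).congr fun v => ?_
    simp

def AxC (c : ℕ) : Prop := (∃ χ ∈ basicList, Fm.code χ = c) ∨
  ((∃ i d, ArC d ∧ compC i d = c) ∨ ∃ n X d, SgC d ∧ chC n X d = c)

theorem axC_iff (c : ℕ) : AxC c ↔ ∃ χ, Ax0 χ ∧ χ.code = c := by
  constructor
  · rintro (⟨χ, h, rfl⟩ | ⟨i, d, hd, rfl⟩ | ⟨n, X, d, hd, rfl⟩)
    · exact ⟨χ, .basic h, rfl⟩
    · obtain ⟨φ, hφ, rfl⟩ := (arC_iff d).1 hd
      exact ⟨_, .comp i hφ, rfl⟩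
    · obtain ⟨φ, hφ, rfl⟩ := (sgC_iff d).1 hd
      exact ⟨_, .choice n X hφ, rfl⟩
  · rintro ⟨χ, hχ, rfl⟩
    cases hχ with
    | basic h => exact Or.inl ⟨_, h, rfl⟩
    | comp i hφ => exact Or.inr (Or.inl ⟨i, _, (arC_iff _).2 ⟨_, hφ, rfl⟩, rfl⟩)
    | choice n X hφ => exact Or.inr (Or.inr ⟨n, X, _, (sgC_iff _).2 ⟨_, hφ, rfl⟩, rfl⟩)

theorem axC_AD : AD1 AxC := by
  refine AD.or (list_AD _) (AD.or (AD.ex (AD.ex (AD.and ?_ ?_)))
    (AD.ex (AD.ex (AD.ex (AD.and ?_ ?_)))))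
  · exact arC_AD.app (IsT.var 0)
  · exact AD.eq ((IsT.var 1).compC (IsT.var 0)) (IsT.var 2)
  · exact sgC_AD.app (IsT.var 0)
  · exact AD.eq ((IsT.var 2).chC (IsT.var 1) (IsT.var 0)) (IsT.var 3)

def clF (k y : ℕ) : ℕ := pr 5 (pr k (pr 6 (pr k y)))

theorem code_cl (φ : Fm) (k : ℕ) : (cl φ k).code = iter clF φ.code k := by
  induction k with
  | zero => rfl
  | succ k ih =>
    show pr 5 (pr k (pr 6 (pr k (cl φ k).code))) = _
    rw [ih]; rfl

theorem T0_AD : AD1 (fun x => ∃ ψ ∈ T0, ψ.code = x) := by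
  unfold AD1
  refine AD.congr (R := fun v => ∃ c, AxC c ∧ iter clF c (c + 1) = v 0) ?_ fun v => ?_
  · refine AD.ex (AD.and (axC_AD.app (IsT.var 0)) ?_)
    refine (AD3.iter (F := clF) ?_).app (IsT.var 0) ((IsT.var 0).add (IsT.const 1)) (IsT.var 1)
    exact (IsT.const 5).pr ((IsT.var 0).pr ((IsT.const 6).pr ((IsT.var 0).pr (IsT.var 1))))
  · constructor
    · rintro ⟨c, hc, h⟩
      obtain ⟨χ, hχ, rfl⟩ := (axC_iff c).1 hc
      exact ⟨_, ⟨χ, hχ, rfl⟩, (code_cl _ _).trans h⟩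
    · rintro ⟨ψ, ⟨χ, hχ, rfl⟩, h⟩
      exact ⟨χ.code, (axC_iff _).2 ⟨χ, hχ, rfl⟩, (code_cl _ _).symm.trans h⟩

/-- adding one sentence -/
theorem insert_AD (σ : Fm) : AD1 (fun x => ∃ ψ ∈ insert σ T0, ψ.code = x) := by
  unfold AD1
  refine (AD.or (AD.eq (IsT.const σ.code) (IsT.var 0)) T0_AD).congr fun v => ?_
  simp

theorem botFree : bot.FreeIn {0} := by
  constructor
  · simp [bot, Fm.fvN, Tm.fv]
  · simp [bot, Fm.fvS]

/-- **Main theorem.** -/
theorem main (𝒜 : Arithmetization) : ∃ T : Set Fm, ExtendsSigma11AC0 T ∧ Pi11Sound T ∧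
    ∃ τ : Fm, Pi11Defines τ T ∧ Proves T (𝒜.reflection τ) := by
  have hst : (𝒜.reflection bot).IsSentence := reflection_sentence 𝒜 botFree
  have htr : std.Holds (𝒜.reflection bot) := by
    refine reflection_std 𝒜 (T := ∅) (fun ψ h => h.elim) ?_ botFree ?_
    · intro φ _ h
      exact h std fun ψ h => h.elim
    · intro n
      constructor
      · intro h; exact absurd h (sat_bot _ _ _)
      · rintro ⟨φ, h, _⟩; exact h.elim
  have hsent : ∀ ψ ∈ insert (𝒜.reflection bot) T0, ψ.IsSentence := by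
    rintro ψ (rfl | h)
    · exact hst
    · exact T0_sentence ψ h
  have hsound : Pi11Sound (insert (𝒜.reflection bot) T0) := by
    intro φ _ h
    refine h std ?_
    rintro ψ (rfl | h)
    · exact htr
    · exact T0_true ψ h
  obtain ⟨α, h1, h2, h3⟩ := (insert_AD (𝒜.reflection bot)).exists_fm
  refine ⟨insert (𝒜.reflection bot) T0, ⟨hsent, fun φ hφ M hM => ?_⟩, hsound,
    self_sound 𝒜 hsent hsound h1 h2 h3 fun M hM => hM _ (Or.inl rfl)⟩
  exact T0_proves (fun ψ hψ => hM ψ (Or.inr hψ)) hφ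

end Pool.Agent.N636.PS
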