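import Pool.Agent.H986R3.SOADefs

/-!
`Sigma^1_1-AC_0`, `Pi^1_1` definitions of theories, and theories that prove their own
`Pi^1_1`-soundness with respect to a `Pi^1_1` definition. The language, structures, provability,
`ACA_0`, the Goedel numbering, arithmetizations and the reflection sentence are in
`Pool/Agent/H986R3/SOADefs.lean`.
-/

set_option autoImplicit false

namespace Pool.Agent.N636.PS

open Pool.Agent.H986R3.SOA

/-- `Sigma^1_1` formulas: a block of existential set quantifiers in front of an arithmetical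
formula. -/
inductive Sigma11 : Fm → Prop
  | arith {φ : Fm} : φ.Arithmetical → Sigma11 φ
  | exS (i : ℕ) {φ : Fm} : Sigma11 φ → Sigma11 (.exS i φ)

/-- The pairing function `(s + t) * (s + t) + s` as a term. -/
def pairT (s t : Tm) : Tm := .add (.mul (.add s t) (.add s t)) s

/-- The instance of the axiom of choice for `φ(n, X)`:
`∀ n ∃ X φ(n, X) → ∃ Y ∀ n ∀ X (X = {m : (n, m) ∈ Y} → φ(n, X))`. -/
def choiceFm (n m X Y : ℕ) (φ : Fm) : Fm :=
  .imp (.all n (.exS X φ))
    (.exS Y (.all n (.allS X (.imp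
      (.all m (.iff (.mem (.var m) X) (.mem (pairT (.var n) (.var m)) Y))) φ))))

/-- The axioms of `Sigma^1_1-AC_0`: the axioms of `ACA_0` and the schema of choice for
`Sigma^1_1` formulas (free variables being universally quantified). -/
inductive Sigma11AC0 : Fm → Prop
  | aca {φ : Fm} : ACA0 φ → Sigma11AC0 φ
  | choice (n m X Y : ℕ) (φ : Fm) : Sigma11 φ → m ≠ n → Y ≠ X → Y ∉ φ.fvS →
      Sigma11AC0 (choiceFm n m X Y φ)

/-- `T` is a set of sentences that proves all axioms of `Sigma^1_1-AC_0`. -/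
def ExtendsSigma11AC0 (T : Set Fm) : Prop :=
  (∀ φ ∈ T, φ.IsSentence) ∧ ∀ φ, Sigma11AC0 φ → Proves T φ

/-- The `Pi^1_1` formula `τ(a)` defines (the set of Goedel numbers of the members of) `T` in the
standard model. -/
def Pi11Defines (τ : Fm) (T : Set Fm) : Prop :=
  τ.IsPi11 ∧ τ.FreeIn {0} ∧ ∀ n : ℕ, SatN n 0 0 τ ↔ ∃ φ ∈ T, φ.code = n

end Pool.Agent.N636.PS
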