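import Pool.Agent.N636.PS.AD

/-!
Closure of the arithmetically definable relations under recursion and inductive generation.
-/

set_option autoImplicit false

namespace Pool.Agent.N636.PS

open Function Pool.Agent.H986R3.SOA

/-- Goedel's beta function -/
def bt (a b i : ℕ) : ℕ := a % ((i + 1) * b + 1)

theorem exists_bt (l : List ℕ) : ∃ a b, ∀ (i : ℕ) (h : i < l.length), bt a b i = l[i] := by
  refine ⟨(Nat.unbeta l).unpair.1, (Nat.unbeta l).unpair.2, fun i h => ?_⟩
  have := Nat.beta_unbeta_coe l ⟨i, h⟩
  simpa [Nat.beta, bt] using this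

theorem AD.bt {a b i y : Ctx → ℕ} (ha : IsT a) (hb : IsT b) (hi : IsT i) (hy : IsT y) :
    AD (fun v => PS.bt (a v) (b v) (i v) = y v) := by
  have hm : IsT (fun v => (i v + 1) * b v + 1) :=
    ((hi.add (IsT.const 1)).mul hb).add (IsT.const 1)
  refine ((AD.lt hy hm).and (AD.ex (P := fun v q => a v = ((i v + 1) * b v + 1) * q + y v)
    (AD.eq ha.tail ((hm.tail.mul (IsT.var 0)).add hy.tail)))).congr fun v => ?_
  unfold PS.bt
  constructor
  · rintro ⟨h1, q, h2⟩
    rw [h2, Nat.mul_add_mod]
    exact Nat.mod_eq_of_lt h1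
  · intro h
    rw [← h]
    exact ⟨Nat.mod_lt _ (Nat.succ_pos _), a v / ((i v + 1) * b v + 1),
      (Nat.div_add_mod _ _).symm⟩

/-- the least set that contains all `x` with `A x` and is closed under the rules `R x y z`
(`x` is obtained from `y` and `z`) -/
inductive Gen (A : ℕ → Prop) (R : ℕ → ℕ → ℕ → Prop) : ℕ → Prop
  | base {x : ℕ} : A x → Gen A R x
  | step {x y z : ℕ} : Gen A R y → Gen A R z → R x y z → Gen A R x

theorem gen_iff (A : ℕ → Prop) (R : ℕ → ℕ → ℕ → Prop) (x : ℕ) :
    Gen A R x ↔ ∃ a b n, bt a b n = x ∧ ∀ i, i < n + 1 → ∃ w, bt a b i = w ∧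
      (A w ∨ ∃ j, j < i ∧ ∃ k, k < i ∧ ∃ y z, bt a b j = y ∧ bt a b k = z ∧ R w y z) := by
  constructor
  · intro h
    have key : ∃ l : List ℕ, ∃ hl : 0 < l.length, l[l.length - 1] = x ∧
        ∀ (i : ℕ) (hi : i < l.length), A l[i] ∨ ∃ (j : ℕ) (hj : j < i) (k : ℕ) (hk : k < i),
          R l[i] (l[j]'(hj.trans hi)) (l[k]'(hk.trans hi)) := by
      induction h with
      | @base x hx =>
        refine ⟨[x], by simp, by simp, fun i hi => Or.inl ?_⟩
        have : i = 0 := by simpa using hi
        subst this
        simpa using hx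
      | @step x y z _ _ hR ihy ihz =>
        obtain ⟨ly, hly, hy, hy'⟩ := ihy
        obtain ⟨lz, hlz, hz, hz'⟩ := ihz
        refine ⟨ly ++ lz ++ [x], by simp, by simp, fun i hi => ?_⟩
        have hlen : (ly ++ lz ++ [x]).length = ly.length + lz.length + 1 := by simp [add_assoc]
        rcases lt_trichotomy i (ly.length + lz.length) with h1 | h1 | h1
        · by_cases h2 : i < ly.length
          · rcases hy' i h2 with h3 | ⟨j, hj, k, hk, h3⟩
            · left
              rw [List.getElem_append_left (by simp; omega), List.getElem_append_left h2]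
              exact h3
            · right
              refine ⟨j, hj, k, hk, ?_⟩
              rw [List.getElem_append_left (by simp; omega), List.getElem_append_left h2,
                List.getElem_append_left (by simp; omega),
                List.getElem_append_left (by omega),
                List.getElem_append_left (by simp; omega),
                List.getElem_append_left (by omega)]
              exact h3
          · have h2' : i - ly.length < lz.length := by omega
            rcases hz' (i - ly.length) h2' with h3 | ⟨j, hj, k, hk, h3⟩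
            · left
              rw [List.getElem_append_left (by simp; omega),
                List.getElem_append_right (by omega)]
              exact h3
            · right
              refine ⟨ly.length + j, by omega, ly.length + k, by omega, ?_⟩
              rw [List.getElem_append_left (by simp; omega),
                List.getElem_append_right (by omega),
                List.getElem_append_left (by simp; omega),
                List.getElem_append_right (by omega),
                List.getElem_append_left (by simp; omega),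
                List.getElem_append_right (by omega)]
              simpa using h3
        · right
          subst h1
          refine ⟨ly.length - 1, by omega, ly.length + (lz.length - 1), by omega, ?_⟩
          rw [List.getElem_append_right (by simp),
            List.getElem_append_left (by simp; omega),
            List.getElem_append_left (by omega),
            List.getElem_append_left (by simp; omega),
            List.getElem_append_right (by omega)]
          simp only [Nat.add_sub_cancel_left, hy, hz]
          simpa using hR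
        · rw [hlen] at hi; omega
    obtain ⟨l, hl, hx, hl'⟩ := key
    obtain ⟨a, b, hab⟩ := exists_bt l
    refine ⟨a, b, l.length - 1, ?_, fun i hi => ⟨l[i]'(by omega), hab i (by omega), ?_⟩⟩
    · rw [hab _ (by omega), hx]
    · rcases hl' i (by omega) with h3 | ⟨j, hj, k, hk, h3⟩
      · exact Or.inl h3
      · exact Or.inr ⟨j, hj, k, hk, _, _, hab j (by omega), hab k (by omega), h3⟩
  · rintro ⟨a, b, n, hx, h⟩
    have key : ∀ i, i < n + 1 → Gen A R (bt a b i) := by
      intro i
      induction i using Nat.strong_induction_on with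
      | _ i ih =>
        intro hi
        obtain ⟨w, hw, h1 | ⟨j, hj, k, hk, y, z, hy, hz, hR⟩⟩ := h i hi
        · rw [hw]; exact .base h1
        · rw [hw]
          refine .step (y := y) (z := z) ?_ ?_ hR
          · rw [← hy]; exact ih j hj (by omega)
          · rw [← hz]; exact ih k hk (by omega)
    rw [← hx]
    exact key n (Nat.lt_succ_self n)

theorem AD1.gen {A : ℕ → Prop} {R : ℕ → ℕ → ℕ → Prop} (hA : AD1 A) (hR : AD3 R) :
    AD1 (Gen A R) := by
  unfold AD1
  refine AD.congr (R := fun v => ∃ a b n, bt a b n = v 0 ∧ ∀ i, i < n + 1 → ∃ w,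
    bt a b i = w ∧ (A w ∨ ∃ j, j < i ∧ ∃ k, k < i ∧ ∃ y z, bt a b j = y ∧ bt a b k = z ∧
      R w y z)) ?_ fun v => (gen_iff A R (v 0)).symm
  refine AD.ex (AD.ex (AD.ex (AD.and ?_ ?_)))
  · exact AD.bt (IsT.var 2) (IsT.var 1) (IsT.var 0) (IsT.var 3)
  · refine AD.ball ((IsT.var 0).add (IsT.const 1)) (AD.ex (AD.and ?_ (AD.or ?_ ?_)))
    · exact AD.bt (IsT.var 4) (IsT.var 3) (IsT.var 1) (IsT.var 0)
    · exact hA.app (IsT.var 0)
    · refine AD.bex (IsT.var 1) (AD.bex (IsT.var 2) (AD.ex (AD.ex (AD.and ?_ (AD.and ?_ ?_)))))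
      · exact AD.bt (IsT.var 8) (IsT.var 7) (IsT.var 3) (IsT.var 1)
      · exact AD.bt (IsT.var 8) (IsT.var 7) (IsT.var 2) (IsT.var 0)
      · exact hR.app (IsT.var 4) (IsT.var 1) (IsT.var 0)

/-- iteration: `iter F c 0 = c`, `iter F c (k + 1) = F k (iter F c k)` -/
def iter (F : ℕ → ℕ → ℕ) (c : ℕ) : ℕ → ℕ
  | 0 => c
  | k + 1 => F k (iter F c k)

theorem iter_iff (F : ℕ → ℕ → ℕ) (c m y : ℕ) : iter F c m = y ↔
    ∃ a b, bt a b 0 = c ∧ (∀ i, i < m → ∃ w w', bt a b i = w ∧ bt a b (i + 1) = w' ∧
      F i w = w') ∧ bt a b m = y := by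
  constructor
  · intro h
    obtain ⟨a, b, hab⟩ := exists_bt ((List.range (m + 1)).map (iter F c))
    have hab' : ∀ i, i < m + 1 → bt a b i = iter F c i := fun i hi => by
      rw [hab i (by simpa using hi)]; simp
    refine ⟨a, b, hab' 0 (by omega), fun i hi => ⟨_, _, hab' i (by omega),
      hab' (i + 1) (by omega), rfl⟩, ?_⟩
    rw [hab' m (by omega), h]
  · rintro ⟨a, b, h0, hs, hm⟩
    have key : ∀ i, i ≤ m → bt a b i = iter F c i := by
      intro i
      induction i with
      | zero => intro _; exact h0
      | succ i ih =>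
        intro hi
        obtain ⟨w, w', h1, h2, h3⟩ := hs i (by omega)
        rw [h2, ← h3, ← h1, ih (by omega)]
        rfl
    rw [← key m le_rfl, hm]

theorem AD3.iter {F : ℕ → ℕ → ℕ} (hF : IsT (fun v => F (v 0) (v 1))) :
    AD3 (fun c m y => PS.iter F c m = y) := by
  unfold AD3
  refine AD.congr (R := fun v => ∃ a b, bt a b 0 = v 0 ∧ (∀ i, i < v 1 → ∃ w w',
    bt a b i = w ∧ bt a b (i + 1) = w' ∧ F i w = w') ∧ bt a b (v 1) = v 2) ?_
    fun v => (iter_iff F (v 0) (v 1) (v 2)).symm
  refine AD.ex (AD.ex (AD.and ?_ (AD.and ?_ ?_)))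
  · exact AD.bt (IsT.var 1) (IsT.var 0) (IsT.const 0) (IsT.var 2)
  · refine AD.ball (IsT.var 3) (AD.ex (AD.ex (AD.and ?_ (AD.and ?_ ?_))))
    · exact AD.bt (IsT.var 4) (IsT.var 3) (IsT.var 2) (IsT.var 1)
    · exact AD.bt (IsT.var 4) (IsT.var 3) ((IsT.var 2).add (IsT.const 1)) (IsT.var 0)
    · refine AD.eq ?_ (IsT.var 0)
      exact hF.comp (g := fun v i => if i = 0 then v 2 else v 1) fun i => by
        by_cases hi : i = 0
        · simp only [hi, if_true]; exact IsT.var 2
        · simp only [hi, if_false]; exact IsT.var 1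
  · exact AD.bt (IsT.var 1) (IsT.var 0) (IsT.var 3) (IsT.var 4)

end Pool.Agent.N636.PS
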